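import Pool.Agent.Y941.SB.Log

set_option autoImplicit false

/-!
# Strong `B_h` sets with `h` even: a logarithmic saving in the lower density

For `0 ≤ α < 1`, `h ≥ 2` even and `δ > 0` there are `K` and `N₀` such that for every `α`-strong
`B_h` set `S` and every `N ≥ N₀` there is `n` with `N ≤ n ≤ N ^ (1 + δ)` and
`S(n) ≤ K (n / log n) ^ ((1 - α) / h)`.
-/

namespace Pool.Agent.Results.MP_1d2509_nt.LogSaving

open Pool.Agent.H894R3.SB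

/-- Let `0 ≤ α < 1`, let `h ≥ 2` be even and `δ > 0`. There are `K` and `N₀` such that for each
`α`-strong `B_h` set `S` (finite or infinite) and each `N ≥ N₀` there is `n` with
`N ≤ n ≤ N ^ (1 + δ)` and `S(n) ≤ K (n / log n) ^ ((1 - α) / h)`. -/
theorem result (α : ℝ) (hα : 0 ≤ α) (hα1 : α < 1) (h : ℕ) (hh : 2 ≤ h) (he : Even h) (δ : ℝ)
    (hδ : 0 < δ) :
    ∃ (K : ℝ) (N₀ : ℕ), ∀ S : Set ℕ, StrongBh α h S → ∀ N : ℕ, N₀ ≤ N →
      ∃ n : ℕ, N ≤ n ∧ (n : ℝ) ≤ (N : ℝ) ^ (1 + δ) ∧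
        (cnt S n : ℝ) ≤ K * ((n : ℝ) / Real.log n) ^ ((1 - α) / (h : ℝ)) := by
  obtain ⟨k, hk⟩ := he
  have hk2 : h = 2 * k := by omega
  subst hk2
  have hk1 : 1 ≤ k := by omega
  have e : ((2 * k : ℕ) : ℝ) = 2 * (k : ℝ) := by push_cast; ring
  rw [e]
  obtain ⟨K, -, N₀, hN⟩ := Pool.Agent.Y941.SB.local_log α k hα hα1 hk1 δ hδ
  refine ⟨K, N₀, fun S hS N hle => ?_⟩
  obtain ⟨n, h1, h2, h3⟩ := hN S (taskConv α (2 * k) S hS) N hle
  exact ⟨n, h1, h2, h3.le⟩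

end Pool.Agent.Results.MP_1d2509_nt.LogSaving
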